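import Mathlib

namespace Pool.Agent.Results.MP_51bcab_lc.Q1

variable {A : Type}

/-- The submonoid `X*` of words generated by `X`. -/
def Star (X : Set (List A)) : Set (List A) := {w | ∃ l : List (List A), (∀ x ∈ l, x ∈ X) ∧ l.flatten = w}

/-- Factors of words of `L`. -/
def F (L : Set (List A)) : Set (List A) := {u | ∃ x y, x ++ u ++ y ∈ L}

def IsSubmonoid (M : Set (List A)) : Prop := [] ∈ M ∧ ∀ u ∈ M, ∀ v ∈ M, u ++ v ∈ M

/-- `ε ∉ X` and no element of `X` is a product of two or more elements of `X`. -/
def MinGen (X : Set (List A)) : Prop :=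
  [] ∉ X ∧ ∀ l : List (List A), (∀ x ∈ l, x ∈ X) → 2 ≤ l.length → l.flatten ∉ X

def MaximalIn (L M : Set (List A)) : Prop :=
  IsSubmonoid M ∧ M ⊆ L ∧ ∀ N, IsSubmonoid N → M ⊆ N → N ⊆ L → N = M

def MinFactorGen (X : Set (List A)) : Prop := ∀ Y, Y ⊂ X → F (Star Y) ≠ F (Star X)

/-- Bracket matching: `(true, c)` opens a bracket of type `c`, `(false, c)` closes one. -/
def run : List (Bool × Bool) → List Bool → Option (List Bool)
  | [], s => some s
  | (true, c) :: w, s => run w (c :: s)
  | (false, _) :: _, [] => none
  | (false, c) :: w, d :: s => if d = c then run w s else none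

lemma run_append (u v s) : run (u ++ v) s = (run u s).bind (run v) := by
  fun_induction run u s <;> simp_all [run]

lemma run_ext {u s r} (t) (h : run u s = some r) : run u (s ++ t) = some (r ++ t) := by
  fun_induction run u s <;> simp_all [run]

lemma run_none {u p} (h : run u p = none) : ∃ t, ∀ s, run u (p ++ t :: s) = none := by
  fun_induction run u p with
  | case1 => simp at h
  | case2 c w s ih => exact ih h
  | case3 c w => exact ⟨!c, fun s => by simp [run]⟩
  | case4 w d s ih => simpa [run] using ih (by simpa using h)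
  | case5 c w d s hd => exact ⟨true, fun s => by simp [run, hd]⟩

lemma run_close (s : List Bool) : run (s.map fun c => (false, c)) s = some [] := by
  induction s with
  | nil => rfl
  | cons c s ih => simp [run, ih]

def N : Set (List (Bool × Bool)) := {w | ∃ s, run w [] = some s}

lemma N_app {u v} (hu : u ∈ N) (hv : v ∈ N) : u ++ v ∈ N := by
  obtain ⟨s, hs⟩ := hu
  obtain ⟨r, hr⟩ := hv
  exact ⟨r ++ s, by rw [run_append, hs]; exact run_ext s hr⟩

def X : Set (List (Bool × Bool)) :=
  {w | w ∈ N ∧ w ≠ [] ∧ ∀ u ∈ N, ∀ v ∈ N, u ++ v = w → u = [] ∨ v = []}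

lemma flat_mem (l : List (List (Bool × Bool))) (h : ∀ x ∈ l, x ∈ N) : l.flatten ∈ N := by
  induction l with
  | nil => exact ⟨[], rfl⟩
  | cons a l ih => exact N_app (h a (by simp)) (ih fun x hx => h x (by simp [hx]))

lemma star_X : Star X = N := by
  ext w
  refine ⟨fun ⟨l, h, e⟩ => e ▸ flat_mem l fun x hx => (h x hx).1, fun h => ?_⟩
  induction hn : w.length using Nat.strong_induction_on generalizing w with
  | _ n ih =>
    by_cases h0 : w = []
    · exact ⟨[], by simp, by simp [h0]⟩
    by_cases hx : w ∈ X
    · exact ⟨[w], by simpa using hx, by simp⟩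
    simp only [X, Set.mem_setOf_eq, h, h0, not_false_eq_true, true_and, ne_eq, not_forall,
      not_or] at hx
    obtain ⟨u, hu, v, hv, rfl, hu0, hv0⟩ := hx
    have := List.length_pos_iff.2 hu0
    have := List.length_pos_iff.2 hv0
    simp only [List.length_append] at hn
    obtain ⟨l1, h1, e1⟩ := ih u.length (by omega) u hu rfl
    obtain ⟨l2, h2, e2⟩ := ih v.length (by omega) v hv rfl
    exact ⟨l1 ++ l2, fun x hx => (List.mem_append.1 hx).elim (h1 x) (h2 x), by simp [e1, e2]⟩

lemma prime_mem {d} (hd : run d [] = some []) : (true, true) :: d ++ [(false, true)] ∈ X := by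
  refine ⟨⟨[], ?_⟩, by simp, ?_⟩
  · have := run_ext [true] hd
    simp only [List.nil_append] at this
    simp [run, run_append, this]
  · rintro u - v ⟨r, hr⟩ e
    by_contra hc
    push Not at hc
    obtain ⟨a, u, rfl⟩ := List.exists_cons_of_ne_nil hc.1
    obtain ⟨v, b, rfl⟩ := (List.eq_nil_or_concat v).resolve_left hc.2
    simp only [List.concat_eq_append, List.cons_append, List.cons.injEq] at e hr
    obtain ⟨e1, e2⟩ := List.append_inj' (s₁ := u ++ v) (t₁ := [b]) (s₂ := d) (t₂ := [(false, true)])
      (by simpa using e.2) rfl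
    obtain rfl : b = (false, true) := by simpa using e2
    subst e1
    rw [run_append] at hr hd
    cases h1 : run u [] with
    | none => simp [h1] at hd
    | some s =>
      cases h2 : run v [] with
      | none => simp [h2] at hr
      | some t =>
        have := run_ext s h2
        rw [h1] at hd
        rw [h2] at hr
        simp only [List.nil_append, Option.bind_some] at this hd hr
        rw [this] at hd
        obtain rfl : t = [] := by simp_all
        simp [run] at hr

theorem result : ¬ ∀ (A : Type) [Fintype A] (X : Set (List A)),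
    MinGen X → MaximalIn (F (Star X)) (Star X) → MinFactorGen X := by
  intro H
  refine H (Bool × Bool) X ⟨fun h => h.2.1 rfl, ?_⟩ ?_ (X \ {[(true, true)]}) ?_ ?_
  · intro l hl h2 hx
    match l, h2 with
    | a :: b :: l, _ =>
      rcases hx.2.2 a (hl a (by simp)).1 (b :: l).flatten
        (flat_mem _ fun x hx => (hl x (by simp [hx])).1) (by simp) with h | h
      · exact (hl a (by simp)).2.1 h
      · exact (hl b (by simp)).2.1 (by simp_all)
  · rw [star_X]
    refine ⟨⟨⟨[], rfl⟩, fun u hu v hv => N_app hu hv⟩, fun w hw => ⟨[], [], by simpa⟩, ?_⟩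
    intro M hM h1 h2
    refine Set.Subset.antisymm (fun u hu => ?_) h1
    by_contra hc
    have hn : run u [] = none := by
      cases h : run u [] with
      | none => rfl
      | some s => exact absurd ⟨s, h⟩ hc
    obtain ⟨t, ht⟩ := run_none hn
    obtain ⟨x, y, s, hs⟩ := h2 (hM.2 [(true, t)] (h1 ⟨[t], rfl⟩) u hu)
    rw [run_append, run_append] at hs
    cases h : run x [] with
    | none => simp [h] at hs
    | some r =>
      have := ht r
      simp_all [run]
  · refine Set.sdiff_singleton_ssubset.2 ⟨⟨[true], rfl⟩, by simp, ?_⟩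
    intro u _ v _ e
    rcases u with _ | ⟨a, u⟩ <;> simp_all
  · ext w
    constructor
    · rintro ⟨x, y, l, hl, e⟩
      exact ⟨x, y, l, fun z hz => (hl z hz).1, e⟩
    · rw [star_X]
      rintro ⟨x, y, s, hs⟩
      have hd : run (x ++ w ++ y ++ s.map fun c => (false, c)) [] = some [] := by
        rw [run_append, hs]; exact run_close s
      refine ⟨(true, true) :: x, y ++ (s.map fun c => (false, c)) ++ [(false, true)], [_],
        fun z hz => ?_, List.flatten_singleton⟩
      obtain rfl := List.mem_singleton.1 hz
      refine ⟨by simpa using prime_mem hd, fun h => ?_⟩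
      have := congrArg List.length (Set.mem_singleton_iff.1 h)
      simp at this

end Pool.Agent.Results.MP_51bcab_lc.Q1
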